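import Pool.Agent.H918Z.Lau.Main

set_option autoImplicit false

open Pool.Agent.H918Z.Lau

universe u v w

/-- Let `S` be a semitopological semigroup and `m` a left invariant mean on `LUC(S)`.  Then `S`
has the fixed point property `(F_*)`: every norm nonexpansive, jointly weak-star continuous
representation of `S` on a nonempty convex weak-star compact subset `C` of the dual of a real or
complex Banach space has a common fixed point.  (`WeakDual K E` is the dual with the weak-star
topology; `WeakDual.toStrongDual` reads its elements in the normed dual.) -/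
theorem Pool.Agent.Results.MP_f4bd1c_an.ALauFStar.result :
    ∀ (S : Type u) [Semigroup S] [TopologicalSpace S] [T2Space S] [SeparatelyContinuousMul S]
      (m : StrongDual ℝ (LUC S)),
      ContinuousLinearMap.opNorm (E := LUC S) (F := ℝ) (σ₁₂ := RingHom.id ℝ) m = 1 →
      m ⟨1, one_mem_LUC S⟩ = 1 →
      (∀ (a : S) (f : LUC S), m ⟨lTrans a f.1, lTrans_mem_LUC a f⟩ = m f) →
      ∀ (K : Type w) [RCLike K] (E : Type v) [NormedAddCommGroup E] [NormedSpace K E]
        [CompleteSpace E] (C : Set (WeakDual K E)), C.Nonempty → Convex ℝ C → IsCompact C →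
        ∀ T : S → C → C,
          (∀ (s t : S) (x : C), T (s * t) x = T s (T t x)) →
          (∀ (s : S) (x y : C),
            ‖WeakDual.toStrongDual (T s x).1 - WeakDual.toStrongDual (T s y).1‖ ≤
              ‖WeakDual.toStrongDual x.1 - WeakDual.toStrongDual y.1‖) →
          (Continuous fun p : S × C => T p.1 p.2) →
          ∃ x : C, ∀ s : S, T s x = x :=
  fun S _ _ _ _ m h1 h2 h3 K _ => Pool.Agent.H918Z.Lau.main K S ⟨m, h1, h2, h3⟩
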